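import Pool.Agent.NH36.Sd.One
import Pool.Agent.NH36.Sd.Core
import Pool.Agent.NH36.Sd.Zar
import Pool.Agent.NH36.Sd.Grm
import Pool.Agent.NH36.Sd.Exp
import Pool.Agent.NH36.Sd.Var
import Pool.Agent.NH36.Sd.Lie
import Pool.Agent.NH36.Sd.Bra
import Pool.Agent.NH36.Sd.Blk

/-!
# Frobenius is semisimple at almost all places

Let `X` be a complete variety over a number field `K`, which may be singular, and `ρ` the
representation of the absolute Galois group `GK K` of `K` on the cohomology of degree `i` of `X` with
coefficients in the field `F` of `ℓ`-adic numbers. Outside a finite set `B` of places `v` the
Frobenius elements at `v` act as the Frobenius of the residue field on the cohomology of the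
reduction of `X` at `v`. The cohomology has the weight filtration, with quotients `φ j`; for
`v ∉ B` the Frobenius eigenvalues on different quotients have different absolute values (Deligne),
so their characteristic polynomials are coprime. The matrices of `ρ` are block triangular in a basis
adapted to the filtration, with the diagonal blocks `φ j`. If `X` is smooth there is only one block.

**Theorem.** If the representations `φ j` are semisimple, then Frobenius acts semisimply at all
places outside a set of density zero.

It holds for all continuous representations over topological fields of characteristic zero. The
theorem `SemisimpleFrobeniusDensity` says that the density exists for all representations; it may be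
any rational number between `0` and `1`. By a conjecture of Grothendieck and Serre the Galois
representations on the quotients of the weight filtration are semisimple; this is known for example
for all varieties whose cohomology is contained in tensor powers of the first cohomology of abelian
varieties (Faltings), and for irreducible representations of any origin.

No hypothesis from the literature is used: Chebotarev's density theorem is proved in the files this
file imports, and so is the following theorem on representations of abstract groups (`S_core`): if
`ρ` is semisimple, then in every coset of a normal subgroup of finite index the elements with the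
maximal number of distinct eigenvalues are semisimple.

The proof of the latter avoids the structure theory of reductive groups. Let `A` be the matrix of
such an element and `N` the logarithm of its unipotent part. Zariski closures contain unipotent
parts; so the first variation of the number of eigenvalues in the direction of a conjugate
`g N g⁻¹` gives `Tr (N g N g⁻¹) = 0`. Therefore the conjugates of `N` span a Lie algebra with trace
form zero. By Cartan's criterion and Engel's theorem it has a common kernel in every
subrepresentation, so it is zero.

* `IsFrob v σ`: `σ` is a Frobenius element at `v`. `dens P N` is the number of places with norm at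
  most `N` and property `P`, divided by the number of the rational primes up to `N`, so its limit is
  the natural density.
* `blk A j` is the `j`-th diagonal block of a block matrix; `SSBy (im φ)` says that each subspace
  stable under all matrices of `φ` has a stable complement.
-/

set_option autoImplicit false

namespace Pool.Agent.Results.MP_b685ef_ag.DensityOne

open NumberField Filter Topology IsDedekindDomain Matrix Pool.Agent.W401.Cheb Pool.Agent.NH36.Sd

theorem result (K : Type) [Field K] [NumberField K] (F : Type) [Field F] [CharZero F]
    [TopologicalSpace F] [IsTopologicalRing F] [T1Space F] (r : ℕ) (m : Fin r → ℕ)
    (ρ : GK K →* GL (Σ j, Fin (m j)) F) (hρ : Continuous ρ)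
    (B : Set (HeightOneSpectrum (𝓞 K))) (hB : B.Finite)
    (φ : ∀ j, GK K →* GL (Fin (m j)) F)
    (htri : ∀ σ, (ρ σ).val.BlockTriangular Sigma.fst)
    (hφ : ∀ j σ, (φ j σ).val = blk (ρ σ).val j) (hss : ∀ j, SSBy (im (φ j)))
    (hcop : ∀ v ∉ B, ∀ σ, IsFrob v σ → ∀ i j, i ≠ j →
      IsCoprime (φ i σ).val.charpoly (φ j σ).val.charpoly) :
    Tendsto (dens fun v : HeightOneSpectrum (𝓞 K) =>
      v ∉ B ∧ ∀ σ, IsFrob v σ → Module.End.IsSemisimple (Matrix.toLin' (ρ σ).val)) atTop (𝓝 1) :=
  one (t_core (t_zar t_exp) grm t_var t_lie t_bra) t_blk m ρ hρ B hB φ hφ htri hss hcop

end Pool.Agent.Results.MP_b685ef_ag.DensityOne
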