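import Pool.Agent.NH56.HO.Main
import Pool.Agent.NH56.HO.Def2

/-!
# Semisimplicity of Frobenius on the cohomology of hyper-Kähler varieties in all degrees

**Theorem.** Let `X` be a projective hyper-Kähler variety, of arbitrary deformation type, over a number
field `K`, and let `g` be an element of the Galois group. If `g` acts semisimply on `H^2(X, ℚ_ℓ)`, then
it acts semisimply on `H^j(X, ℚ_ℓ)` for all `j`.

For a Frobenius element at a place `v` of good reduction, not above `ℓ`, the action on `H^2` is
semisimple: by the construction of Kuga and Satake (Deligne, André) the representation on `H^2` is, on an
open subgroup, contained in the endomorphisms of `H^1` of an abelian variety with potentially good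
reduction at `v`, and a matrix is semisimple if a positive power of it is. So the Frobenius automorphism
acts semisimply on the cohomology in all degrees of every smooth projective variety over a finite field
which is the reduction of a projective hyper-Kähler variety over a number field (specialization
isomorphism). The statement also applies to the lifts of Frobenius elements at the places of bad
reduction.

The proof: an open subgroup of the Galois group commutes with the commutant `E` of the Lie algebra
`so(q)` of Looijenga, Lunts and Verbitsky in `End(H^*(X))` (`Pool.Agent.NH56.HY`: proof of the
Mumford-Tate conjecture for hyper-Kähler varieties in all degrees; valuations of ordinary Frobenius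
elements, theorems of Kronecker, Kolchin and Sen, finiteness of class numbers). So a power of `g`
commutes with `E`. If `g` is semisimple in degree two, the conjugation by `g` is diagonalizable on
`so(q)`, hence on the image of `so(q)` in `End(H^*(X))`, and (finite order) on `E`. The logarithm of the
unipotent part of `g` is a nilpotent operator which commutes with `so(q)` and with `E`, so it is in the
center of `E`, and there are no nilpotent elements in this center, as `E` is semisimple.
-/

set_option autoImplicit false

namespace Pool.Agent.Results.MP_b685ef_ag.HyperKahlerSemisimple

open Matrix Polynomial NumberField IsDedekindDomain Pool.Agent.NH56.HY Pool.Agent.NH56.HO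

/-- **Semisimplicity in degree two implies semisimplicity in all degrees**, for every element of the
Galois group acting on the `ℓ`-adic cohomology of a hyper-Kähler variety. -/
theorem result (K : Type) [Field K] [NumberField K] (ℓ : ℕ) [Fact ℓ.Prime]
    -- the hyper-Kähler variety
    (ι : Type) [Fintype ι] [DecidableEq ι] (X : Coh ι) (hX : IsHyperKahler X)
    -- the `ℓ`-adic realization
    (S : Finset ℕ) (χ : GK K →* ℚ_[ℓ]) (Pol : HeightOneSpectrum (𝓞 K) → ℕ → ℤ[X])
    (ρ : GK K →* Matrix ι ι ℚ_[ℓ]) (hρ : IsRealization X S χ Pol ρ) (hHT : IsHodgeTate X ρ)
    (g : GK K) (hg : Semisimple (blk X.deg 2 (ρ g))) : Semisimple (ρ g) :=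
  main_SSF K ℓ ι X S χ Pol ρ hX hρ hHT g hg

end Pool.Agent.Results.MP_b685ef_ag.HyperKahlerSemisimple
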