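import Pool.Agent.NH36.Sd.Fam2
import Pool.Agent.NH36.Sd.Ext
import Pool.Agent.NH36.Sd.Core
import Pool.Agent.NH36.Sd.Zar
import Pool.Agent.NH36.Sd.Grm
import Pool.Agent.NH36.Sd.Exp
import Pool.Agent.NH36.Sd.Var
import Pool.Agent.NH36.Sd.Lie
import Pool.Agent.NH36.Sd.Bra

/-!
# One fibre with semisimple Frobenius decides for a family over a finite field

Let `S` be a normal connected variety over a finite field, `f : X → S` a smooth projective morphism,
`Γ` the fundamental group of `S`, `Δ` the geometric fundamental group, and `ρ` the representation of
`Γ` on the cohomology of degree `i` of the geometric fibres. Deligne proved that `ρ` is semisimple on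
`Δ`. The quotient of `Γ` by `Δ` is the group of the profinite integers; the Frobenius element `γ` of
a closed point `s` of degree `d` is mapped to `d`, so `γ` and `Δ` generate a dense subgroup of an
open subgroup. By Chebotarev's theorem the closed points of `S` with Frobenius elements in a given
closed subset of `Γ` of measure zero which is stable under conjugation have density zero.

**Theorem.** If Frobenius acts semisimply on the cohomology of degree `i` of one fibre `X_s`, then
`ρ` is a semisimple representation of `Γ`, and all elements of `Γ` outside a closed set `Z` of measure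
zero, stable under conjugation, act semisimply. So Frobenius acts semisimply on the cohomology of
degree `i` for all fibres over closed points but a set of density zero. In other words: either Q1
holds in degree `i` for almost all fibres, or it fails for every fibre.

For example, for smooth hypersurfaces of degree `d` prime to the characteristic the assumption is
satisfied by Fermat hypersurfaces, and it is satisfied by all families which contain one fibre
whose cohomology comes from curves or abelian varieties.

* `SSBy G`: each subspace stable under the matrices in `G` has a complement stable under `G`.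
* `SS A`: the matrix `A` is semisimple.
* `ClosedConj Z`: the set `Z` is closed and stable under conjugation.
-/

set_option autoImplicit false

namespace Pool.Agent.Results.MP_b685ef_ag.OneFibre

open MeasureTheory Matrix Pool.Agent.NH36.Fs Pool.Agent.NH36.Sd

theorem result (Γ F : Type) [Group Γ] [TopologicalSpace Γ] [IsTopologicalGroup Γ] [CompactSpace Γ]
    [MeasurableSpace Γ] [BorelSpace Γ] (μ : Measure Γ) [IsProbabilityMeasure μ]
    [μ.IsMulLeftInvariant] [Field F] [CharZero F] [TopologicalSpace F] [IsTopologicalRing F]
    [T1Space F] (n : ℕ) (ρ : Γ →* GL (Fin n) F) (hρ : Continuous ρ) (Δ : Subgroup Γ)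
    (hΔ : Δ.Normal) (hss : SSBy ((fun σ => (ρ σ).val) '' (Δ : Set Γ))) (γ : Γ)
    (hγ : SS (ρ γ).val)
    (hopen : IsOpen (closure ((Δ ⊔ Subgroup.zpowers γ : Subgroup Γ) : Set Γ))) :
    SSBy (im ρ) ∧ ∃ Z : Set Γ, ClosedConj Z ∧ μ Z = 0 ∧ ∀ σ ∉ Z, SS (ρ σ).val :=
  fam2 (t_core (t_zar t_exp) grm t_var t_lie t_bra) t_ext Γ F μ n ρ hρ Δ hΔ hss γ hγ hopen

end Pool.Agent.Results.MP_b685ef_ag.OneFibre
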