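import Pool.Agent.NH36.Fs.Main

/-!
# How often is Frobenius semisimple on the cohomology of the reductions of a complete variety?

Let `X` be a complete variety over a number field `K`, which may be singular, `i` a number and `ρ` the
representation of the absolute Galois group `GK K` of `K` on the cohomology of `X` of degree `i` with
coefficients in the field `F` of `ℓ`-adic numbers. The representation is unramified outside a finite
set `B` of places, and if `B` is large enough the Frobenius elements of a place `v` not in `B` act as
the Frobenius of the residue field on the cohomology of degree `i` of the reduction of `X` at `v`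
(generic constructibility and proper base change). So the question, for the reductions of `X`, is
whether the Frobenius elements of `GK K` act semisimply for all `v` not in `B`.

The theorem holds for all continuous representations `ρ` over topological fields of characteristic
zero which are unramified outside a finite set `B`. It uses no hypothesis from the literature:
Chebotarev's density theorem is proved in the files it imports.

* `IsFrob v σ`, `IsInert v σ`: `σ` is a Frobenius element at `v`, an element of an inertia group at
  `v`; `dens P N` is the number of places with norm at most `N` and property `P`, divided by the number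
  of the rational primes up to `N`, so its limit is the natural density.
* `numEig A` is the number of distinct eigenvalues of the matrix `A`; `SS A` means that `A` is
  semisimple.
* `Conn ρ U`: the Zariski closure of the image of `U` is connected, that is, a polynomial in the
  matrix entries of `ρ` that vanishes on an open subgroup of `U` vanishes on `U`.
* `Cls U σ₀` is the union of the conjugates of the coset of `σ₀` with respect to the normal subgroup
  `U`.

The theorem says that there are connected open normal subgroups `U`, and for each of them the
following holds.

1. The set of the places where Frobenius is semisimple has a natural density, which is a multiple of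
   the inverse of the index of `U`. In particular it is `0` or `1` if the image of `ρ` is connected.
2. For each class of cosets there is a number `r` such that Frobenius has exactly `r` distinct
   eigenvalues at all places with Frobenius in the class, but a set of density zero. Either all elements
   of the class with `r` distinct eigenvalues are semisimple, or the places with semisimple Frobenius in
   the class have density zero.

So a single place `v` outside `B` with the maximal number of distinct Frobenius eigenvalues in its
class decides: if Frobenius is not semisimple at `v`, it is not semisimple at almost all places in the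
class.
-/

set_option autoImplicit false

namespace Pool.Agent.Results.MP_b685ef_ag.SemisimpleFrobeniusDensity

open NumberField Filter Topology IsDedekindDomain Pool.Agent.W401.Cheb Pool.Agent.NH36.Fs

theorem result (K : Type) [Field K] [NumberField K] (F : Type) [Field F] [CharZero F]
    [TopologicalSpace F] [IsTopologicalRing F] [T1Space F] (n : ℕ)
    (ρ : GK K →* GL (Fin n) F) (hρ : Continuous ρ)
    (B : Set (HeightOneSpectrum (𝓞 K))) (hB : B.Finite)
    (hunr : ∀ v ∉ B, ∀ σ, IsInert v σ → ρ σ = 1) :
    (∃ U : Subgroup (GK K), U.Normal ∧ IsOpen (U : Set (GK K)) ∧ Conn ρ U) ∧
    ∀ U : Subgroup (GK K), U.Normal → IsOpen (U : Set (GK K)) → Conn ρ U →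
      (∃ m : ℕ, m ≤ Nat.card (GK K ⧸ U) ∧
        Tendsto (dens fun v : HeightOneSpectrum (𝓞 K) =>
          v ∉ B ∧ ∀ σ, IsFrob v σ → SS (ρ σ).val) atTop
          (𝓝 ((m : ℝ) / (Nat.card (GK K ⧸ U) : ℝ)))) ∧
      ∀ σ₀ : GK K, ∃ r : ℕ,
        Tendsto (dens fun v : HeightOneSpectrum (𝓞 K) =>
          ∃ σ ∈ Cls U σ₀, IsFrob v σ ∧ numEig (ρ σ).val ≠ r) atTop (𝓝 0) ∧
        ((∀ σ ∈ Cls U σ₀, numEig (ρ σ).val = r → SS (ρ σ).val) ∨
          Tendsto (dens fun v : HeightOneSpectrum (𝓞 K) =>
            ∃ σ ∈ Cls U σ₀, IsFrob v σ ∧ SS (ρ σ).val) atTop (𝓝 0)) := by
  have hρ' : ∀ i j, Continuous fun γ => (ρ γ).val i j := by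
    intro i j
    exact (Units.continuous_val.comp hρ).matrix_elem i j
  refine ⟨exists_conn ρ, fun U hUn hUo hUc => ⟨?_, fun σ₀ => ?_⟩⟩
  · have hfin : Finite (GK K ⧸ U) := U.quotient_finite_of_isOpen hUo
    refine ⟨_, ?_, density ρ hρ' U B hB hunr hUo hUc⟩
    rw [← Set.ncard_univ]
    exact Set.ncard_le_ncard (Set.subset_univ _) (Set.toFinite _)
  · exact ⟨rk ρ U σ₀, zero_one ρ hρ' U hUo hUc σ₀⟩

end Pool.Agent.Results.MP_b685ef_ag.SemisimpleFrobeniusDensity
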